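import Pool.Agent.Y5.S2.Stm2
import Pool.Agent.Y658.S2.OB6

/-!
Stage 6: the orthonormal system satisfies `Bs`.
-/

set_option autoImplicit false

namespace Pool.Agent.Y658.S2

open Pool.Agent.Y5 Pool.Agent.Y5.D Pool.Agent.Y5.E Pool.Agent.Y5.F Pool.Agent.Y5.S2

theorem t_BS6 : S_BS6 := by
  intro J g σ τ ν κ μ lam Λ M A F L C ℓ N G B e _ hc hS hK
  exact bs_of6 hc hS hK

end Pool.Agent.Y658.S2
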